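import Mathlib
import Pool.Agent.H798.BV.Stm4

/-!
MP_172a45_an (project of helper798), part AI2: the integral over `(0, ∞)` from the alternating inequality.
-/

set_option autoImplicit false

open MeasureTheory Set

namespace Pool.Agent.H632.BV

open Pool.Agent.H798.BV

theorem int_pow (j : ℕ) {s : ℂ} (hs : 0 < s.re) :
    IntegrableOn (fun t : ℝ => (t : ℂ) ^ j * Complex.exp (-((t : ℂ) * s))) (Ioi 0) := by
  have h1 : IntegrableOn (fun t : ℝ => t ^ (j : ℝ) * Real.exp (-s.re * t ^ (1 : ℝ))) (Ioi 0) :=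
    integrableOn_rpow_mul_exp_neg_mul_rpow (by
      have : (0 : ℝ) ≤ j := Nat.cast_nonneg j
      linarith) one_pos hs
  refine Integrable.mono' h1 ?_ ?_
  · apply Continuous.aestronglyMeasurable
    fun_prop
  · filter_upwards [ae_restrict_mem measurableSet_Ioi] with t ht
    have ht0 : (0 : ℝ) < t := ht
    rw [norm_mul, norm_pow, Complex.norm_exp, Complex.norm_real, Real.norm_of_nonneg ht0.le,
      Real.rpow_one, Real.rpow_natCast]
    have : (-((t : ℂ) * s)).re = -s.re * t := by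
      simp [mul_comm]
    rw [this]

theorem tend_pow (j : ℕ) {s : ℂ} (hs : 0 < s.re) :
    Filter.Tendsto (fun t : ℝ => (t : ℂ) ^ j * Complex.exp (-((t : ℂ) * s))) Filter.atTop
      (nhds 0) := by
  rw [tendsto_zero_iff_norm_tendsto_zero]
  have h1 : Filter.Tendsto (fun t : ℝ => (s.re * t) ^ j * Real.exp (-(s.re * t)) / s.re ^ j)
      Filter.atTop (nhds 0) := by
    have h2 : Filter.Tendsto (fun t : ℝ => s.re * t) Filter.atTop Filter.atTop :=
      Filter.Tendsto.const_mul_atTop hs Filter.tendsto_id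
    have h3 := ((Real.tendsto_pow_mul_exp_neg_atTop_nhds_zero j).comp h2).div_const (s.re ^ j)
    simpa using h3
  refine h1.congr' ?_
  filter_upwards [Filter.eventually_gt_atTop 0] with t ht
  rw [norm_mul, norm_pow, Complex.norm_exp, Complex.norm_real, Real.norm_of_nonneg ht.le]
  have : (-((t : ℂ) * s)).re = -(s.re * t) := by
    simp [mul_comm]
  rw [this, mul_pow]
  have : s.re ^ j ≠ 0 := pow_ne_zero _ hs.ne'
  field_simp

theorem der_exp (s : ℂ) (t : ℝ) :
    HasDerivAt (fun t : ℝ => Complex.exp (-((t : ℂ) * s))) (-s * Complex.exp (-((t : ℂ) * s))) t := by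
  have h1 : HasDerivAt (fun t : ℝ => -((t : ℂ) * s)) (-(1 * s)) t :=
    ((Complex.ofRealCLM.hasDerivAt (x := t)).mul_const s).neg
  have h2 := h1.cexp
  rw [one_mul, mul_comm] at h2
  exact h2

theorem val_pow (j : ℕ) {s : ℂ} (hs : 0 < s.re) :
    ∫ t in Ioi (0 : ℝ), (t : ℂ) ^ j * Complex.exp (-((t : ℂ) * s)) =
      (j.factorial : ℂ) / s ^ (j + 1) := by
  have hs0 : s ≠ 0 := by
    rintro rfl
    simp at hs
  induction j with
  | zero =>
    have h1 := integral_Ioi_of_hasDerivAt_of_tendsto' (a := (0 : ℝ))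
      (f := fun t : ℝ => Complex.exp (-((t : ℂ) * s)) * (-s⁻¹))
      (f' := fun t : ℝ => (t : ℂ) ^ 0 * Complex.exp (-((t : ℂ) * s))) (m := 0)
      (fun t _ => by
        have := (der_exp s t).mul_const (-s⁻¹)
        have e : -s * Complex.exp (-((t : ℂ) * s)) * (-s⁻¹) =
            (t : ℂ) ^ 0 * Complex.exp (-((t : ℂ) * s)) := by
          field_simp
        rw [e] at this
        exact this)
      (int_pow 0 hs) (by
        have := (tend_pow 0 hs).mul_const (-s⁻¹)
        simpa using this)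
    rw [h1]
    simp
  | succ j ih =>
    have h1 := integral_Ioi_of_hasDerivAt_of_tendsto' (a := (0 : ℝ))
      (f := fun t : ℝ => ((t : ℂ) ^ (j + 1) * Complex.exp (-((t : ℂ) * s))) * (-s⁻¹))
      (f' := fun t : ℝ => (t : ℂ) ^ (j + 1) * Complex.exp (-((t : ℂ) * s)) -
        ((j : ℂ) + 1) / s * ((t : ℂ) ^ j * Complex.exp (-((t : ℂ) * s)))) (m := 0)
      (fun t _ => by
        have hp : HasDerivAt (fun t : ℝ => (t : ℂ) ^ (j + 1)) (((j : ℂ) + 1) * (t : ℂ) ^ j) t := by
          have h0 := (Complex.ofRealCLM.hasDerivAt (x := t)).pow (j + 1)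
          simp only [Complex.ofRealCLM_apply, Complex.ofReal_one, mul_one,
            Nat.add_sub_cancel] at h0
          push_cast at h0
          exact h0
        have := (hp.mul (der_exp s t)).mul_const (-s⁻¹)
        have e : (((j : ℂ) + 1) * (t : ℂ) ^ j * Complex.exp (-((t : ℂ) * s)) +
            (t : ℂ) ^ (j + 1) * (-s * Complex.exp (-((t : ℂ) * s)))) * (-s⁻¹) =
            (t : ℂ) ^ (j + 1) * Complex.exp (-((t : ℂ) * s)) -
            ((j : ℂ) + 1) / s * ((t : ℂ) ^ j * Complex.exp (-((t : ℂ) * s))) := by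
          field_simp
          ring
        rw [e] at this
        exact this)
      ((int_pow (j + 1) hs).sub ((int_pow j hs).const_mul _)) (by
        have := (tend_pow (j + 1) hs).mul_const (-s⁻¹)
        simpa using this)
    rw [integral_sub (int_pow (j + 1) hs) ((int_pow j hs).const_mul _), integral_const_mul, ih]
      at h1
    have h2 : (0 : ℂ) - ((((0 : ℝ) : ℂ) ^ (j + 1) * Complex.exp (-(((0 : ℝ) : ℂ) * s))) * (-s⁻¹)) =
        0 := by
      simp
    rw [h2] at h1
    rw [sub_eq_zero.1 h1, Nat.factorial_succ]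
    push_cast
    field_simp
    ring

theorem expand {K : ℕ} (l : Fin K → ℂ) (B : Finset (Fin K)) (s : ℂ) (t : ℝ) :
    (∏ k ∈ B, (1 - (t : ℂ) * l k)) * Complex.exp (-((t : ℂ) * s)) =
      ∑ S ∈ B.powerset, ((-1 : ℂ) ^ S.card * ∏ k ∈ S, l k) *
        ((t : ℂ) ^ S.card * Complex.exp (-((t : ℂ) * s))) := by
  have h1 : ∏ k ∈ B, (1 - (t : ℂ) * l k) = ∏ k ∈ B, ((-1 * (t : ℂ)) * l k + 1) :=
    Finset.prod_congr rfl fun k _ => by ring
  rw [h1, Finset.prod_add, Finset.sum_mul]
  refine Finset.sum_congr rfl fun S _ => ?_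
  rw [Finset.prod_const_one, mul_one, Finset.prod_mul_distrib, Finset.prod_const, mul_pow]
  ring

theorem t_AI2 (h : S_AI1) : S_AI2 := by
  intro K l B s hs hB
  have hs0 : s ≠ 0 := by
    rintro rfl
    simp at hs
  have hsn : 0 < ‖s‖ := norm_pos_iff.2 hs0
  have hfun : (fun t : ℝ => (∏ k ∈ B, (1 - (t : ℂ) * l k)) * Complex.exp (-((t : ℂ) * s))) =
      fun t : ℝ => ∑ S ∈ B.powerset, ((-1 : ℂ) ^ S.card * ∏ k ∈ S, l k) *
        ((t : ℂ) ^ S.card * Complex.exp (-((t : ℂ) * s))) := by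
    funext t
    exact expand l B s t
  have hint : ∀ S ∈ B.powerset, Integrable (fun t : ℝ => ((-1 : ℂ) ^ S.card * ∏ k ∈ S, l k) *
        ((t : ℂ) ^ S.card * Complex.exp (-((t : ℂ) * s)))) (volume.restrict (Ioi 0)) := by
    intro S _
    exact (int_pow S.card hs).const_mul _
  refine ⟨?_, ?_⟩
  · rw [hfun]
    exact integrable_finsetSum _ hint
  · rw [hfun, integral_finsetSum _ hint]
    have e1 : ∑ S ∈ B.powerset, ∫ t in Ioi (0 : ℝ), ((-1 : ℂ) ^ S.card * ∏ k ∈ S, l k) *
        ((t : ℂ) ^ S.card * Complex.exp (-((t : ℂ) * s))) =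
        s⁻¹ * ∑ S ∈ B.powerset, (-1 : ℂ) ^ S.card * (S.card.factorial : ℂ) *
          ∏ k ∈ S, (l k / s) := by
      rw [Finset.mul_sum]
      refine Finset.sum_congr rfl fun S _ => ?_
      rw [integral_const_mul, val_pow S.card hs, Finset.prod_div_distrib, Finset.prod_const,
        pow_succ]
      field_simp
    rw [e1, norm_mul, norm_inv]
    have hsum : ∑ k ∈ B, ‖l k / s‖ = (∑ k ∈ B, ‖l k‖) / ‖s‖ := by
      rw [Finset.sum_div]
      exact Finset.sum_congr rfl fun k _ => norm_div _ _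
    have h2 := h K (fun k => l k / s) B (by
      rw [hsum, div_le_one hsn]
      exact hB)
    simp only [hsum] at h2
    calc (‖s‖ - ∑ k ∈ B, ‖l k‖) / ‖s‖ ^ 2 = ‖s‖⁻¹ * (1 - (∑ k ∈ B, ‖l k‖) / ‖s‖) := by
          field_simp
      _ ≤ _ := by
          apply mul_le_mul_of_nonneg_left h2
          positivity

end Pool.Agent.H632.BV
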